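import Pool.Agent.Helper364_SP.All

/-!
# A sequential theory that is not mutually interpretable with any extension of `S^1_2`

The definitions used in the statement are in `Pool.Agent.Helper364_SP.Defs` (interpretations,
sequential theories, recursively enumerable theories, `S^1_2`) and `Pool.Agent.TH686.BA.Defs`
(bounded formulas of the language of `S^1_2`, the axioms `BASIC`).
-/

set_option autoImplicit false

namespace Pool.Agent.Results.MP_d999cd_lc.NotEverySequential

open FirstOrder Pool.Agent.Helper364_SP

/-- There is a recursively enumerable sequential theory `U` with finitely many non-logical symbols
such that no extension `T` of `S^1_2` in the language of `S^1_2` (recursively enumerable or not) is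
mutually interpretable with `U` (the interpretations may be many-dimensional and may use
parameters). -/
theorem result : ∃ (L : FirstOrder.Language.{0, 0}) (U : L.Theory),
    Finite (Σ n, L.Functions n) ∧ Finite (Σ n, L.Relations n) ∧ IsRE U ∧ IsSequential U ∧
    ∀ T : LBA.Theory, ExtendsS12 T → ¬ MutuallyInterpretable U T :=
  main lems

end Pool.Agent.Results.MP_d999cd_lc.NotEverySequential
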